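import Mathlib
import Pool.Agent.Helper26.Maz.Cells

/-!
# MAZ-CIRC: a holonomy on the circle with given monodromy
-/

set_option autoImplicit false

namespace Pool.Agent.Helper26.Maz

namespace Circ89

open unitInterval

theorem cov : IsCoveringMap (fun y : ℝ => (y : C4)) := AddCircle.isCoveringMap_coe (4 : ℝ)

/-- the representative in `[0, 4)` -/
noncomputable def rep (x : C4) : ℝ := ((AddCircle.equivIco 4 0 x : Set.Ico (0 : ℝ) (0 + 4)) : ℝ)

theorem coe_rep (x : C4) : ((rep x : ℝ) : C4) = x := AddCircle.coe_equivIco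

theorem rep_nonneg (x : C4) : 0 ≤ rep x := (AddCircle.equivIco 4 0 x).2.1

theorem rep_lt (x : C4) : rep x < 4 := by
  have := (AddCircle.equivIco 4 0 x).2.2
  simpa [rep] using this

theorem exists_int_of_coe_eq {a b : ℝ} (h : (a : C4) = (b : C4)) : ∃ k : ℤ, a = b + 4 * k := by
  have h2 : ((a - b : ℝ) : C4) = 0 := by
    rw [AddCircle.coe_sub, h, sub_self]
  obtain ⟨n, hn⟩ := (AddCircle.coe_eq_zero_iff (4 : ℝ)).1 h2
  refine ⟨n, ?_⟩
  simp only [zsmul_eq_mul] at hn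
  linarith

theorem coe_add_int (a : ℝ) (k : ℤ) : ((a + 4 * k : ℝ) : C4) = (a : C4) := by
  rw [AddCircle.coe_add]
  have : ((4 * k : ℝ) : C4) = 0 := by
    rw [AddCircle.coe_eq_zero_iff]
    exact ⟨k, by simp [mul_comm]⟩
  rw [this, add_zero]

/-- The representative of the class of a real number. -/
theorem rep_coe (a : ℝ) : rep (a : C4) = a - 4 * ⌊a / 4⌋ := by
  obtain ⟨k, hk⟩ := exists_int_of_coe_eq (coe_rep (a : C4))
  have h0 := rep_nonneg (a : C4)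
  have h1 := rep_lt (a : C4)
  have : ⌊a / 4⌋ = -k := by
    rw [Int.floor_eq_iff]
    push_cast
    constructor <;> linarith
  rw [this, hk]
  push_cast
  ring

/-- The number of turns of a path. -/
noncomputable def turns {x y : C4} (γ : Path x y) : ℤ :=
  ⌊(cov.liftPath γ.toContinuousMap (rep x) (by simp [coe_rep])) 1 / 4⌋

theorem turns_eq {x y : C4} (γ : Path x y) (Γ : C(I, ℝ)) (hΓ : ∀ s, ((Γ s : ℝ) : C4) = γ s) :
    turns γ = ⌊Γ 1 / 4⌋ - ⌊Γ 0 / 4⌋ := by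
  have h0 : ((Γ 0 : ℝ) : C4) = ((rep x : ℝ) : C4) := by
    rw [hΓ 0, coe_rep]
    exact γ.source
  obtain ⟨k, hk⟩ := exists_int_of_coe_eq h0
  set Γ' : C(I, ℝ) := ⟨fun s => Γ s + 4 * ((-k : ℤ) : ℝ), by fun_prop⟩ with hΓ'
  have key : Γ' = cov.liftPath γ.toContinuousMap (rep x) (by simp [coe_rep]) := by
    rw [cov.eq_liftPath_iff']
    refine ⟨?_, ?_⟩
    · funext s
      show ((Γ s + 4 * ((-k : ℤ) : ℝ) : ℝ) : C4) = γ s
      rw [coe_add_int, hΓ]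
    · show Γ 0 + 4 * ((-k : ℤ) : ℝ) = rep x
      rw [hk]
      push_cast
      ring
  unfold turns
  rw [← key]
  have e1 : Γ' 1 / 4 = Γ 1 / 4 + ((-k : ℤ) : ℝ) := by
    show (Γ 1 + 4 * ((-k : ℤ) : ℝ)) / 4 = _
    ring
  have e0 : Γ 0 / 4 = rep x / 4 + (k : ℝ) := by
    rw [hk]
    ring
  rw [e1, e0, Int.floor_add_intCast, Int.floor_add_intCast]
  have : ⌊rep x / 4⌋ = 0 := by
    rw [Int.floor_eq_zero_iff]
    constructor
    · have := rep_nonneg x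
      positivity
    · have := rep_lt x
      linarith
  rw [this]
  ring

theorem exists_lift {x y : C4} (γ : Path x y) : ∃ Γ : C(I, ℝ), ∀ s, ((Γ s : ℝ) : C4) = γ s := by
  refine ⟨cov.liftPath γ.toContinuousMap (rep x) (by simp [coe_rep]), fun s => ?_⟩
  have := cov.liftPath_lifts γ.toContinuousMap (rep x) (by simp [coe_rep])
  exact congrFun this s

theorem turns_homot {x y : C4} (γ γ' : Path x y) (h : Path.Homotopy γ γ') :
    turns γ = turns γ' := by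
  unfold turns
  rw [cov.liftPath_apply_one_eq_of_homotopicRel ⟨h⟩]

theorem turns_trans {x y z : C4} (γ : Path x y) (δ : Path y z) :
    turns (γ.trans δ) = turns γ + turns δ := by
  obtain ⟨Γ, hΓ⟩ := exists_lift (γ.trans δ)
  have hmem1 : ∀ s : I, (s : ℝ) / 2 ∈ I := fun s => ⟨by have := s.2.1; positivity,
    by have := s.2.2; linarith⟩
  have hmem2 : ∀ s : I, (1 + (s : ℝ)) / 2 ∈ I := fun s => ⟨by have := s.2.1; positivity,
    by have := s.2.2; linarith⟩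
  set Γ₁ : C(I, ℝ) := ⟨fun s => Γ ⟨(s : ℝ) / 2, hmem1 s⟩, by fun_prop⟩ with hΓ₁
  set Γ₂ : C(I, ℝ) := ⟨fun s => Γ ⟨(1 + (s : ℝ)) / 2, hmem2 s⟩, by fun_prop⟩ with hΓ₂
  have e1 : ∀ s, ((Γ₁ s : ℝ) : C4) = γ s := by
    intro s
    show ((Γ ⟨(s : ℝ) / 2, hmem1 s⟩ : ℝ) : C4) = γ s
    rw [hΓ, Path.trans_apply]
    have hs : (((⟨(s : ℝ) / 2, hmem1 s⟩ : I) : ℝ)) ≤ 1 / 2 := by
      show (s : ℝ) / 2 ≤ 1 / 2
      have := s.2.2
      linarith
    rw [dif_pos hs]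
    congr 1
    apply Subtype.ext
    show 2 * ((s : ℝ) / 2) = s
    ring
  have e2 : ∀ s, ((Γ₂ s : ℝ) : C4) = δ s := by
    intro s
    show ((Γ ⟨(1 + (s : ℝ)) / 2, hmem2 s⟩ : ℝ) : C4) = δ s
    rw [hΓ, Path.trans_apply]
    by_cases hs : (((⟨(1 + (s : ℝ)) / 2, hmem2 s⟩ : I) : ℝ)) ≤ 1 / 2
    · have hs' : (s : ℝ) = 0 := by
        have h1 : (1 + (s : ℝ)) / 2 ≤ 1 / 2 := hs
        have := s.2.1
        linarith
      have hs0 : s = 0 := Subtype.ext hs'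
      subst hs0
      rw [dif_pos hs]
      have : (⟨2 * ((1 + ((0 : I) : ℝ)) / 2), (unitInterval.mul_pos_mem_iff zero_lt_two).2
        ⟨(hmem2 0).1, hs⟩⟩ : I) = 1 := by
        apply Subtype.ext
        show 2 * ((1 + ((0 : I) : ℝ)) / 2) = 1
        simp
      rw [this, γ.target, δ.source]
    · rw [dif_neg hs]
      congr 1
      apply Subtype.ext
      show 2 * ((1 + (s : ℝ)) / 2) - 1 = s
      ring
  rw [turns_eq _ Γ hΓ, turns_eq _ Γ₁ e1, turns_eq _ Γ₂ e2]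
  have a1 : Γ₁ 0 = Γ 0 := by
    show Γ ⟨((0 : I) : ℝ) / 2, hmem1 0⟩ = Γ 0
    congr 1
    apply Subtype.ext
    simp
  have a2 : Γ₂ 1 = Γ 1 := by
    show Γ ⟨(1 + ((1 : I) : ℝ)) / 2, hmem2 1⟩ = Γ 1
    congr 1
    apply Subtype.ext
    simp
  have a3 : Γ₁ 1 = Γ₂ 0 := by
    show Γ ⟨((1 : I) : ℝ) / 2, hmem1 1⟩ = Γ ⟨(1 + ((0 : I) : ℝ)) / 2, hmem2 0⟩
    congr 1
    apply Subtype.ext
    simp
  rw [a1, a2, a3]
  ring

theorem home_fst (a : ℝ) : (home ((a : C4), 0, 0)).1 = ((⌊a⌋ : ℤ) : ZMod 4) := by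
  show (((⌊rep (a : C4)⌋ : ℤ)) : ZMod 4) = _
  rw [rep_coe]
  have : a - 4 * (⌊a / 4⌋ : ℝ) = a - ((4 * ⌊a / 4⌋ : ℤ) : ℝ) := by push_cast; ring
  rw [this, Int.floor_sub_intCast]
  push_cast
  have h4 : (4 : ZMod 4) = 0 := rfl
  rw [h4]
  ring

theorem floor_div_four (a : ℝ) : ⌊a / 4⌋ = ⌊a⌋ / 4 := by
  have := Int.floor_div_natCast a 4
  simpa using this

theorem lab4_eq {Γ : Type*} [Group Γ] (t : Γ) (j m n : ℤ) (hm : m = j - 1 ∨ m = j)
    (hn : n = j - 1 ∨ n = j) :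
    t ^ (n / 4 - m / 4) = lab4 t (m : ZMod 4) (n : ZMod 4) := by
  have hcast : ∀ k r : ℤ, ((k : ZMod 4) = (r : ZMod 4)) ↔ k % 4 = r % 4 := by
    intro k r
    exact ZMod.intCast_eq_intCast_iff' k r 4
  have h3 : ∀ k : ℤ, ((k : ZMod 4) = 3) ↔ k % 4 = 3 := by
    intro k
    have := hcast k 3
    simpa using this
  have h0 : ∀ k : ℤ, ((k : ZMod 4) = 0) ↔ k % 4 = 0 := by
    intro k
    have := hcast k 0
    simpa using this
  unfold lab4
  simp only [h3, h0]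
  by_cases hc : m % 4 = 3 ∧ n % 4 = 0
  · rw [if_pos hc]
    have : n / 4 - m / 4 = 1 := by omega
    rw [this, zpow_one]
  · rw [if_neg hc]
    by_cases hc' : m % 4 = 0 ∧ n % 4 = 3
    · rw [if_pos hc']
      have : n / 4 - m / 4 = -1 := by omega
      rw [this, zpow_neg, zpow_one]
    · rw [if_neg hc']
      have : n / 4 - m / 4 = 0 := by omega
      rw [this, zpow_zero]

theorem turns_small {Γ : Type*} [Group Γ] (t : Γ) (j : ℤ) {x y : C4} (γ : Path x y)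
    (h : ∀ s, γ s ∈ (fun y : ℝ => (y : C4)) '' Set.Ioo ((j : ℝ) - 1) (j + 1)) :
    t ^ turns γ = lab4 t (home (x, 0, 0)).1 (home (y, 0, 0)).1 := by
  have hval : ∀ s, ((AddCircle.equivIco 4 ((j : ℝ) - 2) (γ s) :
      Set.Ico ((j : ℝ) - 2) ((j : ℝ) - 2 + 4)) : ℝ) ∈ Set.Ioo ((j : ℝ) - 1) (j + 1) := by
    intro s
    obtain ⟨r, hr, hrs⟩ := h s
    have hr' : r ∈ Set.Ico ((j : ℝ) - 2) ((j : ℝ) - 2 + 4) := ⟨by linarith [hr.1], by linarith [hr.2]⟩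
    rw [← hrs]
    show ((AddCircle.equivIco 4 ((j : ℝ) - 2) (r : C4) :
      Set.Ico ((j : ℝ) - 2) ((j : ℝ) - 2 + 4)) : ℝ) ∈ _
    rw [AddCircle.equivIco_coe_eq hr']
    exact hr
  have hne : ∀ s, γ s ≠ (((j : ℝ) - 2 : ℝ) : C4) := by
    intro s hs
    have h1 := hval s
    rw [hs, AddCircle.equivIco_coe_eq (⟨le_refl _, by linarith⟩ :
      ((j : ℝ) - 2) ∈ Set.Ico ((j : ℝ) - 2) ((j : ℝ) - 2 + 4))] at h1
    have := h1.1
    simp only at this
    linarith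
  have hcont : Continuous (fun s : I => ((AddCircle.equivIco 4 ((j : ℝ) - 2) (γ s) :
      Set.Ico ((j : ℝ) - 2) ((j : ℝ) - 2 + 4)) : ℝ)) := by
    refine continuous_subtype_val.comp ?_
    rw [continuous_iff_continuousAt]
    intro s
    exact (AddCircle.continuousAt_equivIco 4 ((j : ℝ) - 2) (hne s)).comp γ.continuous.continuousAt
  set L : C(I, ℝ) := ⟨_, hcont⟩ with hL
  have hLc : ∀ s, ((L s : ℝ) : C4) = γ s := fun s => AddCircle.coe_equivIco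
  have hLv : ∀ s, L s ∈ Set.Ioo ((j : ℝ) - 1) (j + 1) := hval
  rw [turns_eq γ L hLc, floor_div_four, floor_div_four]
  have hx : x = ((L 0 : ℝ) : C4) := by rw [hLc, γ.source]
  have hy : y = ((L 1 : ℝ) : C4) := by rw [hLc, γ.target]
  have hf : ∀ s, ⌊L s⌋ = j - 1 ∨ ⌊L s⌋ = j := by
    intro s
    have h1 : j - 1 ≤ ⌊L s⌋ := by
      rw [Int.le_floor]
      push_cast
      exact (hLv s).1.le
    have h2 : ⌊L s⌋ < j + 1 := by
      rw [Int.floor_lt]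
      push_cast
      exact (hLv s).2
    omega
  have e0 : (home (x, 0, 0)).1 = ((⌊L 0⌋ : ℤ) : ZMod 4) := by
    rw [hx, home_fst]
  have e1 : (home (y, 0, 0)).1 = ((⌊L 1⌋ : ℤ) : ZMod 4) := by
    rw [hy, home_fst]
  rw [e0, e1]
  exact lab4_eq t j _ _ (hf 0) (hf 1)

end Circ89

theorem circ_exists {Γ : Type*} [Group Γ] (t : Γ) :
    ∃ T : HolOn (Set.univ : Set C4) Γ, ∀ j : ℤ, ∀ {x y : C4} (γ : Path x y),
      (∀ s, γ s ∈ (fun y : ℝ => (y : C4)) '' Set.Ioo ((j : ℝ) - 1) (j + 1)) →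
      T.hol γ = lab4 t (home (x, 0, 0)).1 (home (y, 0, 0)).1 :=
  ⟨{ hol := fun γ => t ^ Circ89.turns γ
     trans := fun γ δ _ _ => by rw [Circ89.turns_trans, zpow_add]
     homot := fun γ γ' h _ => by rw [Circ89.turns_homot γ γ' h] },
   fun j {_ _} γ h => Circ89.turns_small t j γ h⟩

end Pool.Agent.Helper26.Maz
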